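import Mathlib

/-!
# The conjectured supercongruences at `-3` and `81` fail for `p = 13`
-/

namespace Pool.Agent.Results.MP_cec948_nt.FailsThirteen

/-- `binom(a,k) = a(a-1)⋯(a-k+1)/k!` for rational `a`. -/
def bin (a : ℚ) (k : ℕ) : ℚ := (∏ i ∈ Finset.range k, (a - i)) / k.factorial

/-- `S_p`. -/
def S (p : ℕ) : ℚ := ∑ k ∈ Finset.range p, bin (-1 / 4) k * bin (-1 / 2) k / (-3) ^ k
/-- `T_p`. -/
def T (p : ℕ) : ℚ := ∑ k ∈ Finset.range p, bin (-1 / 4) k * bin (-1 / 2) k / 81 ^ k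

/-- `x ≡ y mod p^m` for `p`-integral rationals: `(x-y)/p^m` is `p`-integral. -/
def Cong (p m : ℕ) (x y : ℚ) : Prop := ¬ p ∣ ((x - y) / (p : ℚ) ^ m).den

/-- The statement of Q1 for one prime. -/
def Stmt (p : ℕ) : Prop :=
  (p % 4 = 1 → ∃ x y : ℤ, Odd x ∧ (p : ℤ) = x ^ 2 + y ^ 2 ∧
    Cong p 2 (S p) (2 * x - p / (2 * x)) ∧
    Cong p 2 ((-1) ^ ((p - 1) / 4) * T p) (2 * x - p / (2 * x))) ∧
  (p % 4 = 3 → Cong p 1 (S p) 0 ∧ Cong p 1 (T p) 0)

lemma not_stmt : ¬ Stmt 13 := by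
  rintro ⟨h, -⟩
  obtain ⟨x, y, hx, hxy, h1, h2⟩ := h (by norm_num)
  have hx3 : x = 3 ∨ x = -3 ∨ x = 1 ∨ x = -1 := by
    have hb : x ^ 2 ≤ 13 := by push_cast at hxy; nlinarith [sq_nonneg y]
    have hx4 : -4 < x ∧ x < 4 := by constructor <;> nlinarith
    obtain ⟨k, hk⟩ := hx
    omega
  have hx1 : x = 3 ∨ x = -3 := by
    rcases hx3 with h | h | h | h
    · exact Or.inl h
    · exact Or.inr h
    all_goals
      exfalso
      subst h
      push_cast at hxy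
      have hy : y ^ 2 = 12 := by linarith
      have hy4 : -4 < y ∧ y < 4 := by constructor <;> nlinarith
      obtain ⟨h5, h6⟩ := hy4
      interval_cases y <;> omega
  rcases hx1 with rfl | rfl
  · apply h2
    decide +kernel
  · apply h1
    decide +kernel

/-- **Main result**: Q1 is false; it fails at `p = 13`. -/
theorem result : ¬ ∀ p : ℕ, p.Prime → 5 ≤ p → Stmt p := fun h =>
  not_stmt (h 13 (by norm_num) (by norm_num))

end Pool.Agent.Results.MP_cec948_nt.FailsThirteen
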